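import Pool.Agent.K3h44.RQ.Stm4

/-!
# Project RQ (helper44), brick LINQ (written by helper99)
-/

set_option autoImplicit false

namespace Pool.Agent.K3h99.RQ

open Pool.Agent.K3h44.RQ PowerSeries

theorem exq_const (κ : Type) [Field κ] : constantCoeff (exq κ) = 1 := by
  rw [← coeff_zero_eq_constantCoeff_apply]
  unfold exq
  rw [coeff_mk]
  simp

theorem t_LINQ : S_LINQ := by
  intro p _ κ _ _ x y x' y' A t B hA ht hB h1 h2 hne j hj
  set f := ZMod.castHom (dvd_refl p) κ with hf
  have hE : PowerSeries.map f (exq (ZMod p)) = exq κ := by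
    ext k
    rw [coeff_map]
    unfold exq
    rw [coeff_mk, coeff_mk, map_inv₀, map_natCast]
  obtain ⟨D, hD⟩ : ∃ D, D = C x + C y * exq κ := ⟨_, rfl⟩
  obtain ⟨D', hD'⟩ : ∃ D', D' = C x' + C y' * exq κ := ⟨_, rfl⟩
  have hDc : constantCoeff D ≠ 0 := by
    rw [hD, map_add, map_mul, exq_const, constantCoeff_C, constantCoeff_C, mul_one]
    exact h1
  have hDc' : constantCoeff D' ≠ 0 := by
    rw [hD', map_add, map_mul, exq_const, constantCoeff_C, constantCoeff_C, mul_one]
    exact h2
  have hi : D * D⁻¹ = 1 := PowerSeries.mul_inv_cancel D hDc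
  have hi' : D' * D'⁻¹ = 1 := PowerSeries.mul_inv_cancel D' hDc'
  obtain ⟨N, hN⟩ : ∃ N, N = C A + C t * exq (ZMod p) + C B * exq (ZMod p) ^ 2 := ⟨_, rfl⟩
  have hNm : PowerSeries.map f N = D * D' := by
    rw [hN, map_add, map_add, map_mul, map_mul, map_pow, hE, map_C, map_C, map_C, hA, ht, hB, hD,
      hD', map_mul, map_add, map_mul, map_mul, map_mul]
    ring
  have hNc : constantCoeff N ≠ 0 := by
    intro h0
    have h3 : f (constantCoeff N) = constantCoeff (PowerSeries.map f N) := by
      rw [← coeff_zero_eq_constantCoeff_apply, ← coeff_zero_eq_constantCoeff_apply, coeff_map]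
    rw [h0, map_zero, hNm, map_mul] at h3
    exact mul_ne_zero hDc hDc' h3.symm
  have hiN : N * N⁻¹ = 1 := PowerSeries.mul_inv_cancel N hNc
  have hQ : PowerSeries.map f (quoq A t B) * (D * D') = exq κ := by
    have e1 : quoq A t B = exq (ZMod p) * N⁻¹ := by
      rw [hN]
      rfl
    rw [← hNm, ← map_mul, e1, mul_assoc, mul_comm N⁻¹ N, hiN, mul_one, hE]
  have hc : cumq x y = C y * exq κ * D⁻¹ := by
    rw [hD]
    rfl
  have hc' : cumq x' y' = C y' * exq κ * D'⁻¹ := by
    rw [hD']
    rfl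
  have key : cumq x y - cumq x' y' = C (y * x' - y' * x) * PowerSeries.map f (quoq A t B) := by
    have hDD : D * D' ≠ 0 := by
      intro h0
      have := congrArg (fun z => z * (D⁻¹ * D'⁻¹)) h0
      simp only [zero_mul] at this
      have h3 : D * D' * (D⁻¹ * D'⁻¹) = (D * D⁻¹) * (D' * D'⁻¹) := by ring
      rw [h3, hi, hi', one_mul] at this
      exact one_ne_zero this
    refine mul_right_cancel₀ hDD ?_
    rw [mul_assoc, hQ, hc, hc']
    have e1 : (C y * exq κ * D⁻¹ - C y' * exq κ * D'⁻¹) * (D * D') =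
        C y * exq κ * D' * (D * D⁻¹) - C y' * exq κ * D * (D' * D'⁻¹) := by ring
    rw [e1, hi, hi', hD, hD', map_sub, map_mul, map_mul]
    ring
  have h3 := congrArg (coeff j) key
  rw [map_sub, hj, sub_self, coeff_C_mul, coeff_map] at h3
  rcases mul_eq_zero.1 h3.symm with h4 | h4
  · exact absurd (by linear_combination -h4) hne
  · exact f.injective (by rw [h4, map_zero])

end Pool.Agent.K3h99.RQ
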